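import Pool.Agent.J4H63.ESY.Gen

/-!
# The good event as a condition on the added oracle: it is closed
-/

set_option autoImplicit false

namespace Pool.Agent.J4H25.NPQ

open Pool.Agent.NPC Pool.Agent.H628R3.RO Pool.Agent.J4H63.ESY Filter Topology

section

variable {c c' : Polynomial ℕ} {N₁ N₂ : Oracle → List Bool → Prop}
  {R : Oracle → Oracle → List Bool → Prop} {n₀ : ℕ} {F G : Finset (List Bool)}
  {Z : List Bool → Prop}

/-- the good event, as a condition on the added oracle -/
def GoodZ (Z : List Bool → Prop) (N₁ N₂ : Oracle → List Bool → Prop)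
    (R : Oracle → Oracle → List Bool → Prop) (n₀ : ℕ) (F G : Finset (List Bool)) : Set Oracle :=
  {A | (∀ q, ¬ (N₁ A q ∧ N₂ A q)) ∧ (∀ q ∈ F, (N₁ A q → q ∈ G) ∧ (N₂ A q → q ∉ G)) ∧
    ∀ T, Sep N₁ N₂ A T → (∀ q ∈ F, (T q = true ↔ q ∈ G)) →
      ∀ x : List Bool, n₀ ≤ x.length → (R T A x ↔ ¬ Z x)}

/-- one of the countably many conditions -/
def condZ (Z : List Bool → Prop) (c' : Polynomial ℕ) (N₁ N₂ : Oracle → List Bool → Prop)
    (R : Oracle → Oracle → List Bool → Prop) (F G : Finset (List Bool)) (x : List Bool)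
    (τ : Finset (List Bool)) : Set Oracle :=
  {A | (∀ q : List Bool, q.length ≤ c'.eval x.length →
      (N₁ A q → q ∈ τ) ∧ (N₂ A q → q ∉ τ) ∧ (q ∈ F → (q ∈ τ ↔ q ∈ G))) →
    (R (ofF τ) A x ↔ ¬ Z x)}

theorem loc_condZ (h₁ : Cert c N₁) (h₂ : Cert c N₂) (hR : Cert2 c' R) (x : List Bool)
    (τ : Finset (List Bool)) :
    Loc {s | s.length ≤ c.eval (c'.eval x.length) + c'.eval x.length}
      (condZ Z c' N₁ N₂ R F G x τ) := by
  intro A A' h
  simp only [condZ, Set.mem_ofPred_eq]
  have e1 : ∀ q : List Bool, q.length ≤ c'.eval x.length → (N₁ A q ↔ N₁ A' q) := by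
    intro q hq
    refine h₁.loc q A A' fun s hs => h s ?_
    have := NPC.eval_mono c hq
    simp only [Set.mem_ofPred_eq] at hs ⊢
    omega
  have e2 : ∀ q : List Bool, q.length ≤ c'.eval x.length → (N₂ A q ↔ N₂ A' q) := by
    intro q hq
    refine h₂.loc q A A' fun s hs => h s ?_
    have := NPC.eval_mono c hq
    simp only [Set.mem_ofPred_eq] at hs ⊢
    omega
  have e3 : R (ofF τ) A x ↔ R (ofF τ) A' x := hR.congr (fun _ _ => rfl) fun q hq => h q (by
    simp only [Set.mem_ofPred_eq]; omega)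
  rw [e3]
  refine imp_congr_left (forall₂_congr fun q hq => ?_)
  rw [e1 q hq, e2 q hq]

theorem goodZ_eq (hR : Cert2 c' R) :
    GoodZ Z N₁ N₂ R n₀ F G = (⋂ q : List Bool, ({A | N₁ A q} ∩ {A | N₂ A q})ᶜ) ∩
      ((⋂ q : List Bool, {A | q ∈ F → (N₁ A q → q ∈ G) ∧ (N₂ A q → q ∉ G)}) ∩
        ⋂ x : List Bool, ⋂ _ : n₀ ≤ x.length, ⋂ τ : Finset (List Bool),
          condZ Z c' N₁ N₂ R F G x τ) := by
  classical
  ext A
  simp only [GoodZ, Set.mem_inter_iff, Set.mem_iInter, Set.mem_ofPred_eq, Set.mem_compl_iff]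
  refine and_congr_right fun hdisj => and_congr_right fun hcons => ?_
  constructor
  · intro h x hx τ hτ
    set T : Oracle := fun q => if q.length ≤ c'.eval x.length then decide (q ∈ τ) else
      if q ∈ F then decide (q ∈ G) else decide (N₁ A q) with hT
    have hsep : Sep N₁ N₂ A T := by
      intro q
      by_cases hq : q.length ≤ c'.eval x.length
      · obtain ⟨h1, h2, _⟩ := hτ q hq
        simp only [hT, if_pos hq]
        exact ⟨fun h => by simpa using h1 h, fun h => by simpa using h2 h⟩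
      · simp only [hT, if_neg hq]
        by_cases hF : q ∈ F
        · obtain ⟨h1, h2⟩ := hcons q hF
          simp only [if_pos hF]
          exact ⟨fun h => by simpa using h1 h, fun h => by simpa using h2 h⟩
        · simp only [if_neg hF]
          refine ⟨fun h => by simpa using h, fun h => ?_⟩
          have : ¬ N₁ A q := fun h' => hdisj q ⟨h', h⟩
          simpa using this
    have hTF : ∀ q ∈ F, (T q = true ↔ q ∈ G) := by
      intro q hF
      by_cases hq : q.length ≤ c'.eval x.length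
      · simp only [hT, if_pos hq, decide_eq_true_eq]
        exact (hτ q hq).2.2 hF
      · simp only [hT, if_neg hq, if_pos hF, decide_eq_true_eq]
    rw [← h T hsep hTF x hx]
    refine hR.congr (fun q hq => ?_) fun _ _ => rfl
    simp only [hT, if_pos hq, ofF]
  · intro h T hsep hTF x hx
    set τ : Finset (List Bool) := (finite_length_le (c'.eval x.length)).toFinset.filter
      (fun q => T q = true) with hτ
    have hmem : ∀ q : List Bool, q.length ≤ c'.eval x.length → (q ∈ τ ↔ T q = true) := by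
      intro q hq
      rw [hτ, Finset.mem_filter, Set.Finite.mem_toFinset]
      exact ⟨fun h => h.2, fun h => ⟨hq, h⟩⟩
    rw [← h x hx τ ?_]
    · refine hR.congr (fun q hq => ?_) fun _ _ => rfl
      unfold ofF
      by_cases h1 : T q = true
      · rw [h1, decide_eq_true ((hmem q hq).2 h1)]
      · rw [Bool.not_eq_true] at h1
        rw [h1, decide_eq_false]
        rw [hmem q hq, h1]
        simp
    · intro q hq
      rw [hmem q hq]
      refine ⟨(hsep q).1, fun h2 => ?_, hTF q⟩
      rw [(hsep q).2 h2]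
      simp

theorem isClosed_goodZ (h₁ : Cert c N₁) (h₂ : Cert c N₂) (hR : Cert2 c' R) :
    IsClosed (GoodZ Z N₁ N₂ R n₀ F G) := by
  rw [goodZ_eq hR]
  refine (isClosed_iInter fun q => ?_).inter ((isClosed_iInter fun q => ?_).inter
    (isClosed_iInter fun x => isClosed_iInter fun _ => isClosed_iInter fun τ =>
        isClosed_of_loc (finite_length_le _) (loc_condZ h₁ h₂ hR x τ)))
  · exact isClosed_of_loc (finite_length_le (c.eval q.length))
      (M2.Loc.compl (M2.Loc.inter (h₁.loc q) (h₂.loc q)))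
  refine isClosed_of_loc (finite_length_le (c.eval q.length)) fun A A' h => ?_
  simp only [Set.mem_ofPred_eq]
  have e1 : N₁ A q ↔ N₁ A' q := h₁.loc q A A' h
  have e2 : N₂ A q ↔ N₂ A' q := h₂.loc q A A' h
  rw [e1, e2]

end

/-- the oracle `B ⊕ E ⊕ S`, as a function of `S` -/
theorem ext_third (B E : Oracle) : Ext (fun S => join B (join E S)) where
  loc q := by
    rcases q with _ | ⟨b, q⟩
    · exact ⟨[], le_rfl, fun _ _ _ => rfl⟩
    · cases b with
      | false => exact ⟨[], Nat.zero_le _, fun _ _ _ => rfl⟩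
      | true =>
        rcases q with _ | ⟨b, q⟩
        · exact ⟨[], Nat.zero_le _, fun _ _ _ => rfl⟩
        · cases b with
          | false => exact ⟨[], Nat.zero_le _, fun _ _ _ => rfl⟩
          | true => exact ⟨q, by simp only [List.length_cons]; omega, fun _ _ h => h⟩
  emb := ⟨fun x => true :: true :: x, Poly.cons (NPC.Poly.const true)
    (Poly.cons (NPC.Poly.const true) Poly.id), fun _ _ => rfl⟩

/-- the requirement number `(M₁, M₂, M, n₀, F, G)` fails for `B` and `S` -/
def Bad (B E : Oracle) (M₁ M₂ M : Alg × Polynomial ℕ) (n₀ : ℕ) (F G : Finset (List Bool)) :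
    Set Oracle :=
  {S | B ∈ Good (fun A => Acc M₁.1 M₁.2 (join A (join E S)))
    (fun A => Acc M₂.1 M₂.2 (join A (join E S)))
    (fun T A => Acc M.1 M.2 (join T (join A (join E S)))) n₀ F G}

theorem isClosed_bad (B E : Oracle) (M₁ M₂ M : Alg × Polynomial ℕ) (n₀ : ℕ)
    (F G : Finset (List Bool)) : IsClosed (Bad B E M₁ M₂ M n₀ F G) := by
  obtain ⟨c₁, h₁⟩ := acc_cert (ext_third B E) M₁.1 M₁.2
  obtain ⟨c₂, h₂⟩ := acc_cert (ext_third B E) M₂.1 M₂.2
  obtain ⟨c₃, h₃⟩ := acc_cert2 (ext_third B E) M.1 M.2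
  have h₁' := h₁.mono (c' := c₁ + c₂) fun n => by rw [Polynomial.eval_add]; omega
  have h₂' := h₂.mono (c' := c₁ + c₂) fun n => by rw [Polynomial.eval_add]; omega
  exact isClosed_goodZ (Z := InL B) (n₀ := n₀) (F := F) (G := G) h₁' h₂' h₃

/-- almost surely the requirements hold for all finite sets -/
theorem ae_finite (E : Oracle) : ∀ᵐ B ∂randomOracle, ∀ S : Oracle, {y | S y = true}.Finite →
    ∀ (M₁ M₂ M : Alg × Polynomial ℕ) (n₀ : ℕ) (F G : Finset (List Bool)),
      S ∉ Bad B E M₁ M₂ M n₀ F G := by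
  have h1 : ∀ᵐ B ∂randomOracle, ∀ (D : Finset (List Bool)) (M₁ M₂ M : Alg × Polynomial ℕ)
      (n₀ : ℕ) (F G : Finset (List Bool)),
      (fun y => decide (y ∈ D) : Oracle) ∉ Bad B E M₁ M₂ M n₀ F G := by
    simp only [MeasureTheory.ae_all_iff]
    intro D M₁ M₂ M n₀ F G
    have hO := ext_join (join E (fun y => decide (y ∈ D)))
    obtain ⟨c₁, h₁⟩ := acc_cert hO M₁.1 M₁.2
    obtain ⟨c₂, h₂⟩ := acc_cert hO M₂.1 M₂.2
    obtain ⟨c₃, h₃⟩ := acc_cert2 hO M.1 M.2
    have h₁' := h₁.mono (c' := c₁ + c₂) fun n => by rw [Polynomial.eval_add]; omega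
    have h₂' := h₂.mono (c' := c₁ + c₂) fun n => by rw [Polynomial.eval_add]; omega
    have h := prob_good (n₀ := n₀) (F := F) (G := G) h₁' h₂' h₃
    rw [prob, MeasureTheory.measureReal_eq_zero_iff] at h
    exact MeasureTheory.measure_eq_zero_iff_ae_notMem.1 h
  filter_upwards [h1] with B hB S hS
  have h2 : S = fun y => decide (y ∈ hS.toFinset) := by
    funext y
    rw [Bool.eq_iff_iff, decide_eq_true_eq, Set.Finite.mem_toFinset]
    rfl
  rw [h2]
  exact hB _

end Pool.Agent.J4H25.NPQ
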