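import Pool.Agent.J4H65.CP.Main
import Pool.Agent.J4H25.NPQ.Clo
import Mathlib.Topology.Baire.CompleteMetrizable
import Mathlib.Topology.Baire.Lemmas

/-!
# The sparse oracle depends continuously on the thresholds
-/

set_option autoImplicit false

namespace Pool.Agent.J4H25.NPQ

open Filter Topology Pool.Agent.NPC Pool.Agent.H620R2.Gauge Pool.Agent.H620R2.Gauge.CC
  Pool.Agent.J4H65.OP Pool.Agent.J4H65.OF Pool.Agent.J4H65.CP

variable (g : ℕ → Oracle → Set (List Bool)) (b : ℕ → Polynomial ℕ)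

/-- the numbers of the programs which may matter for strings of length at most `N` -/
def Ks (N : ℕ) : Set ℕ := {κ | ∃ (e : ℕ) (q : List Bool), e ≤ N ∧ q.length ≤ N ∧
  κ = Nat.pair e (idx q)}

theorem ks_finite (N : ℕ) : (Ks N).Finite := by
  have h1 : (Set.Iic N ×ˢ {q : List Bool | q.length ≤ N}).Finite :=
    (Set.finite_Iic N).prod (Pool.Agent.H628R3.RO.finite_length_le N)
  refine (h1.image fun p : ℕ × List Bool => Nat.pair p.1 (idx p.2)).subset ?_
  rintro κ ⟨e, q, he, hq, rfl⟩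
  exact ⟨(e, q), ⟨he, hq⟩, rfl⟩

theorem length_ins (q : List Bool) (v n : ℕ) : q.length ≤ (ins q v n).length := by
  unfold ins
  rw [Pool.Agent.H620R2.Gauge.length_pairBits, Pool.Agent.H620R2.Gauge.length_pairBits]
  omega

theorem e_le_code (R : ℕ → Polynomial ℕ) (e : ℕ) (x : List Bool) :
    e ≤ (code R e x).length ∧ x.length ≤ (code R e x).length := by
  unfold code
  simp only [List.length_append, List.length_replicate, List.length_cons]
  omega

theorem fr_thr {thr thr' : ℕ → ℕ} {N : ℕ} (h : ∀ κ ∈ Ks N, thr κ = thr' κ) {B A : Oracle} {e : ℕ}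
    {x : List Bool} (hx : (code (Rb b) e x).length ≤ N)
    (hF : Fr (Rb b) (ac thr) B e (g e) (b e) A x) : Fr (Rb b) (ac thr') B e (g e) (b e) A x := by
  obtain ⟨k, q, n, rfl, hF⟩ := hF
  refine ⟨k, q, n, rfl, ?_⟩
  have h1 := e_le_code (Rb b) e (ins (k :: q)
    (syn (wd q n) (fun v => B (cod (Rb b) e (k :: q) v n))) n)
  have h2 := length_ins (k :: q) (syn (wd q n) (fun v => B (cod (Rb b) e (k :: q) v n))) n
  rw [List.length_cons] at h2
  have h3 : ac thr e q = ac thr' e q := by
    unfold ac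
    rw [h _ ⟨e, q, by omega, by omega, rfl⟩]
  rw [← h3]
  exact hF

theorem fi_thr {thr thr' : ℕ → ℕ} {N : ℕ} (h : ∀ κ ∈ Ks N, thr κ = thr' κ) (B : Oracle)
    (y : List Bool) (hy : y.length ≤ N) : Fi (ac thr) g b B y = Fi (ac thr') g b B y := by
  induction hn : y.length using Nat.strong_induction_on generalizing y with
  | _ n ih =>
    by_cases h1 : ∃ (e : ℕ) (x : List Bool), y = code (Rb b) e x
    · obtain ⟨e, x, rfl⟩ := h1
      rw [Bool.eq_iff_iff, Pool.Agent.J4H65.OF.Fi_code, Pool.Agent.J4H65.OF.Fi_code]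
      have h2 : Fr (Rb b) (ac thr) B e (g e) (b e) (Fi (ac thr) g b B) x ↔
          Fr (Rb b) (ac thr') B e (g e) (b e) (Fi (ac thr') g b B) x := by
        rw [Fr_local (ac thr) g b B e (Fi (ac thr) g b B) (Fi (ac thr') g b B) x (fun z hz =>
          ih z.length (by omega) z (by omega) rfl)]
        exact ⟨fr_thr g b h hy, fr_thr g b (fun κ hκ => (h κ hκ).symm) hy⟩
      rw [h2]
    · push Not at h1
      unfold Pool.Agent.J4H65.OF.Fi
      rw [Phi_not _ _ _ _ h1, Phi_not _ _ _ _ h1]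

/-- the sparse oracle for the thresholds `thr + t` -/
noncomputable def St (thr : ℕ → ℕ) (C : Oracle) (t : ℕ → ℕ) : Oracle := fun y =>
  Fi (ac fun κ => thr κ + t κ) g b (cpy C) y != cpy C y

theorem st_thr {thr : ℕ → ℕ} {C : Oracle} {t t' : ℕ → ℕ} {N : ℕ} (h : ∀ κ ∈ Ks N, t κ = t' κ)
    (y : List Bool) (hy : y.length ≤ N) : St g b thr C t y = St g b thr C t' y := by
  unfold St
  rw [fi_thr g b (thr := fun κ => thr κ + t κ) (thr' := fun κ => thr κ + t' κ) (N := N)
    (fun κ hκ => by simp only [h κ hκ]) (cpy C) y hy]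

theorem st_cont (thr : ℕ → ℕ) (C : Oracle) : Continuous (St g b thr C) := by
  refine continuous_pi fun y => IsLocallyConstant.continuous ?_
  rw [IsLocallyConstant.iff_exists_open]
  intro t₀
  refine ⟨(Ks y.length).pi fun κ => {t₀ κ}, isOpen_set_pi (ks_finite _) fun κ _ =>
    isOpen_discrete _, fun κ _ => rfl, fun t ht => ?_⟩
  exact st_thr g b (fun κ hκ => ht κ hκ) y le_rfl

/-- few strings, and those are rare if the thresholds are large -/
theorem st_few {f : ℕ → ℕ} {thr : ℕ → ℕ}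
    (hthr : ∀ κ N : ℕ, thr κ ≤ N → 2 * ((κ : ℝ) + 1) ≤ ((Nat.cast : ℕ → ℝ) ∘ f) N) (C : Oracle)
    (t : ℕ → ℕ) : Few f (St g b thr C t) := by
  intro N
  have h2 := card_dif_le (fun κ => thr κ + t κ) g b (F := ((Nat.cast : ℕ → ℝ) ∘ f))
    (fun κ N h => hthr κ N (by omega)) (cpy C) N
  have h3 : ((2 * ⌊((Nat.cast ∘ f) N : ℝ) / 2⌋₊ : ℕ) : ℝ) ≤ f N := d_le (Nat.cast_nonneg _)
  have h4 : 2 * ⌊((Nat.cast ∘ f) N : ℝ) / 2⌋₊ ≤ f N := by exact_mod_cast h3
  refine le_trans (le_of_eq ?_) (h2.trans h4)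
  congr 1
  unfold dif
  refine Finset.filter_congr fun i _ => ?_
  exact bne_iff_ne

/-- at most `2 J` strings among the first `N`, if only `J` thresholds are at most `N` -/
theorem st_card {thr : ℕ → ℕ} (hthr : Tendsto thr atTop atTop) (C : Oracle) {t : ℕ → ℕ} {J N : ℕ}
    (ht : ∀ κ, J ≤ κ → N < t κ) :
    ((Finset.range N).filter (fun i => St g b thr C t (str i) = true)).card ≤ 2 * J := by
  classical
  have hex : ∀ M : ℕ, ∃ K : ℕ, ∀ κ, thr κ ≤ M → κ ≤ K := by
    intro M
    obtain ⟨K, hK⟩ := eventually_atTop.1 (hthr.eventually_gt_atTop M)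
    refine ⟨K, fun κ hκ => ?_⟩
    by_contra h
    have := hK κ (by omega)
    omega
  choose K hK using hex
  have h2 := card_dif_le (fun κ => thr κ + t κ) g b
    (F := fun M => if M ≤ N then 2 * (J : ℝ) else 2 * ((K M : ℝ) + 1)) (fun κ M h => by
      split_ifs with hM
      · have h3 : κ < J := by
          by_contra h4
          have := ht κ (by omega)
          omega
        have h4 : ((κ + 1 : ℕ) : ℝ) ≤ J := by exact_mod_cast h3
        push_cast at h4
        linarith
      · have h3 : (κ : ℝ) ≤ K M := by exact_mod_cast hK M κ (by omega)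
        linarith) (cpy C) N
  simp only [le_refl, if_true] at h2
  have h3 : ⌊2 * (J : ℝ) / 2⌋₊ = J := by
    rw [mul_div_cancel_left₀ _ (by norm_num : (2 : ℝ) ≠ 0), Nat.floor_natCast]
  rw [h3] at h2
  refine le_trans (le_of_eq ?_) h2
  congr 1
  unfold dif
  refine Finset.filter_congr fun i _ => ?_
  exact bne_iff_ne

theorem cluster {α : Type} [TopologicalSpace α] [CompactSpace α] (x : ℕ → α) :
    ∃ a, MapClusterPt a atTop x := by
  obtain ⟨a, -, ha⟩ := isCompact_univ (X := α) (f := map x atTop) (by simp)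
  exact ⟨a, ha⟩

theorem mem_of_cluster {α : Type} [TopologicalSpace α] {x : ℕ → α} {a : α} {K : Set α}
    (hK : IsClosed K) (h : MapClusterPt a atTop x) {m₀ : ℕ} (hx : ∀ m, m₀ ≤ m → x m ∈ K) :
    a ∈ K := by
  by_contra hne
  have h1 : Kᶜ ∈ 𝓝 a := hK.isOpen_compl.mem_nhds hne
  have h2 := h.frequently h1
  obtain ⟨m, hm, h3⟩ := (h2.and_eventually (eventually_ge_atTop m₀)).exists
  exact hm (hx m h3)

/-- **Baire category in the space of the thresholds.** -/
theorem generic {thr : ℕ → ℕ} (hthr : Tendsto thr atTop atTop) (C : Oracle) {ι : Type}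
    [Countable ι] (Bd : ι → Set Oracle) (hcl : ∀ i, IsClosed (Bd i))
    (hfin : ∀ S : Oracle, {y | S y = true}.Finite → ∀ i, S ∉ Bd i) :
    ∃ t : ℕ → ℕ, ∀ i, St g b thr C t ∉ Bd i := by
  classical
  have hd : Dense (⋂ i, (St g b thr C ⁻¹' Bd i)ᶜ) := by
    refine dense_iInter_of_isOpen (fun i => ((hcl i).preimage (st_cont g b thr C)).isOpen_compl)
      fun i => ?_
    rw [dense_iff_inter_open]
    rintro U hU ⟨t₀, ht₀⟩
    obtain ⟨I, u, hu, hsub⟩ := isOpen_pi_iff.1 hU t₀ ht₀
    obtain ⟨J, hJ⟩ : ∃ J : ℕ, ∀ κ ∈ I, κ < J :=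
      ⟨I.sup id + 1, fun κ hκ => Nat.lt_succ_of_le (Finset.le_sup (f := id) hκ)⟩
    by_contra hno
    set tm : ℕ → ℕ → ℕ := fun m κ => if κ < J then t₀ κ else m with htm
    have hmem : ∀ m, St g b thr C (tm m) ∈ Bd i := by
      intro m
      by_contra h
      refine hno ⟨tm m, hsub fun κ hκ => ?_, h⟩
      have h1 : tm m κ = t₀ κ := by
        rw [htm]
        simp only [if_pos (hJ κ hκ)]
      rw [h1]
      exact (hu κ hκ).2
    obtain ⟨S, hS⟩ := cluster fun m => St g b thr C (tm m)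
    refine hfin S ?_ i (mem_of_cluster (hcl i) hS (m₀ := 0) fun m _ => hmem m)
    refine finite_of_few (c := 2 * J) fun N => ?_
    have hcN : IsClosed {S : Oracle | ((Finset.range N).filter
        (fun i => S (str i) = true)).card ≤ 2 * J} := by
      refine Pool.Agent.J4H63.ESY.isClosed_of_loc (K := {y | ∃ i < N, y = str i}) ?_ ?_
      · exact ((Finset.range N).finite_toSet.image str).subset (by
          rintro y ⟨i, hi, rfl⟩
          exact ⟨i, by simpa using hi, rfl⟩)
      · intro A A' h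
        simp only [Set.mem_ofPred_eq]
        have h1 : (Finset.range N).filter (fun i => A (str i) = true) =
            (Finset.range N).filter (fun i => A' (str i) = true) := by
          refine Finset.filter_congr fun i hi => ?_
          rw [h (str i) ⟨i, Finset.mem_range.1 hi, rfl⟩]
        rw [h1]
    refine mem_of_cluster (K := {S : Oracle | ((Finset.range N).filter
      (fun i => S (str i) = true)).card ≤ 2 * J}) hcN hS (m₀ := N + 1) fun m hm => ?_
    refine st_card g b hthr C fun κ hκ => ?_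
    rw [htm]
    simp only [if_neg (show ¬ κ < J by omega)]
    omega
  obtain ⟨t, ht⟩ := hd.nonempty
  exact ⟨t, fun i h => Set.mem_iInter.1 ht i h⟩

end Pool.Agent.J4H25.NPQ
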