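import Pool.Agent.J4H25.NPQ.Cont

/-!
# Complete disjoint pairs, none of which is hard for `NP`
-/

set_option autoImplicit false

namespace Pool.Agent.J4H25.NPQ

open Filter Topology Pool.Agent.NPC Pool.Agent.H620R2.Gauge Pool.Agent.H620R2.Gauge.CC
  Pool.Agent.J4H65.OP Pool.Agent.J4H65.OF Pool.Agent.J4H65.CP

open Pool.Agent.J4H63.ESY (join)

/-- the sparse oracles of helper65, for all thresholds -/
theorem sparse_t (Λ : ℕ → Oracle → Set (List Bool)) (hΛ : ∀ e, IsLocal (Λ e)) (C : Oracle) :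
    ∃ (g : ℕ → Oracle → Set (List Bool)) (b : ℕ → Polynomial ℕ), ∀ thr t : ℕ → ℕ,
      ∃ A, Mix A C (St g b thr C t) ∧ HasSystems Λ A := by
  obtain ⟨gM, hgM⟩ := exists_enum
  choose bM hbM using fun e : ℕ => act_length (gM e).1 (gM e).2
  choose bΛ hbΛ using hΛ
  refine ⟨fam gM Λ, fab bM bΛ, fun thr t => ?_⟩
  set g := fam gM Λ with hg
  set b := fab bM bΛ with hb
  have h1 : ∀ e : ℕ, {q : List Bool | ∃ k n, Scale 1 e q n ∧
      Mark (Rb b) e k q n (cpy C)}.Finite := by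
    intro e
    refine Set.Finite.subset Set.finite_empty ?_
    rintro q ⟨k, n, hS, hm⟩
    exact absurd hm (no_mark C b hS)
  set A := Pool.Agent.J4H65.OF.Fi (ac fun κ => thr κ + t κ) g b (cpy C) with hA
  have hin : ∀ z, A (false :: false :: false :: z) = C z := by
    intro z
    have h2 : false :: false :: false :: z ∉
        Pool.Agent.J4H65.OF.Tf (ac fun κ => thr κ + t κ) g b (cpy C) A := by
      rintro ⟨e, x, h3, -⟩
      exact code_ne b e x z h3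
    rw [hA, Pool.Agent.J4H65.OF.Fi_not (ac fun κ => thr κ + t κ) g b (cpy C) _ h2]
    rfl
  have hSt : ∀ y, St g b thr C t y = (A y != cpy C y) := fun y => rfl
  refine ⟨A, ⟨hin, fun y hy => ?_, fun y hy => ?_⟩, fam_opt hgM hbM hbΛ _ (cpy C) h1⟩
  · rw [hSt, cpy_of_c3 hy]
    simp
  · obtain ⟨z, rfl⟩ := c3_iff.1 hy
    rw [hSt, hin]
    simp [cpy]

/-- a complete pair for all thresholds -/
theorem complete_t (B E : Oracle) : ∃ (g : ℕ → Oracle → Set (List Bool)) (b : ℕ → Polynomial ℕ),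
    ∀ thr t : ℕ → ℕ, HasCompletePair (join B (join E (St g b thr (join B E) t))) := by
  obtain ⟨g, b, h⟩ := sparse_t (fun _ => Lam) (fun _ => lam_local) (join B E)
  refine ⟨g, b, fun thr t => ?_⟩
  obtain ⟨A, hm, hsys⟩ := h thr t
  obtain ⟨P, hP⟩ := hsys.2 0 (lam_nonempty A)
  obtain ⟨C, D, hC, hD, hCD, hall⟩ := complete hP
  refine ⟨C, D, ⟨?_, ?_, fun x hx => Set.disjoint_left.1 hCD hx.1 hx.2⟩, ?_⟩
  · exact np_to_ro ((mix_isNP hm C).1 hC)
  · exact np_to_ro ((mix_isNP hm D).1 hD)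
  · rintro X₀ X₁ ⟨h0, h1, h2⟩
    obtain ⟨F, hF, hF0, hF1⟩ := hall X₀ X₁ ((mix_isNP hm X₀).2 (np_of_np h0))
      ((mix_isNP hm X₁).2 (np_of_np h1))
      (Set.disjoint_left.2 fun x hx hx' => h2 x ⟨hx, hx'⟩)
    exact ⟨F, (isFP_iff _ F).1 ((mix_isFP hm F).1 hF), hF0, hF1⟩

/-- **Near almost every oracle there are oracles with a complete pair, relative to which no pair is
hard for `NP`.** -/
theorem main (E : Oracle) : ∀ᵐ B ∂Pool.Agent.H628R3.RO.randomOracle, ∀ f : ℕ → ℕ,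
    Tendsto f atTop atTop → ∃ S : Oracle, Few f S ∧ HasCompletePair (join B (join E S)) ∧
      ∃ L : Set (List Bool), Pool.Agent.J4H63.ESY.IsUP2 (join B (join E S)) L ∧
        Pool.Agent.J4H63.ESY.NoPairHardFor (join B (join E S)) L := by
  filter_upwards [ae_finite E, Pool.Agent.J4H63.ESY.ae_wits] with B hB hw f hf
  obtain ⟨n₀, hn₀⟩ := hw
  obtain ⟨g, b, hcomp⟩ := complete_t B E
  obtain ⟨thr, hthr⟩ := exists_thr ((tendsto_natCast_atTop_atTop (R := ℝ)).comp hf)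
  have hthr' : Tendsto thr atTop atTop := by
    refine tendsto_atTop.2 fun M => eventually_atTop.2 ⟨f M, fun κ hκ => ?_⟩
    by_contra hlt
    have h1 := hthr κ M (by omega)
    have h2 : ((2 * (κ + 1) : ℕ) : ℝ) ≤ ((f M : ℕ) : ℝ) := by
      push_cast
      exact h1
    have h3 : 2 * (κ + 1) ≤ f M := by exact_mod_cast h2
    omega
  have := Pool.Agent.J4H63.ESY.countable_poly
  obtain ⟨t, ht⟩ := generic g b hthr' (join B E)
    (ι := (Pool.Agent.H628R3.RO.Alg × Polynomial ℕ) × (Pool.Agent.H628R3.RO.Alg × Polynomial ℕ) ×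
      (Pool.Agent.H628R3.RO.Alg × Polynomial ℕ) × ℕ × Finset (List Bool) × Finset (List Bool))
    (fun i => Bad B E i.1 i.2.1 i.2.2.1 i.2.2.2.1 i.2.2.2.2.1 i.2.2.2.2.2)
    (fun i => isClosed_bad _ _ _ _ _ _ _ _) (fun S hS i => hB S hS _ _ _ _ _ _)
  have hO := Pool.Agent.J4H63.ESY.ext_join (join E (St g b thr (join B E) t))
  refine ⟨St g b thr (join B E) t, st_few g b hthr _ t, hcomp thr t,
    {x | n₀ ≤ x.length ∧ Pool.Agent.J4H63.ESY.InL B x},
    Pool.Agent.J4H63.ESY.isUP2 hO hn₀, fun L₀ L₁ hL => ?_⟩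
  obtain ⟨T, hT, hT'⟩ := Pool.Agent.J4H63.ESY.sep_of_good hO
    (fun M₁ M₂ M n₀ F G => ht (M₁, M₂, M, n₀, F, G)) n₀ hL
  exact ⟨T, hT, fun h => hT' (Pool.Agent.J4H63.ESY.isP_isCoNP h), hT'⟩

end Pool.Agent.J4H25.NPQ
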